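import Pool.Agent.N223.Cat.Fin

/-!
# Complete second-order theories with definable axiom systems are categorical if `V = L`

Everything takes place in the universe `ZFSet.{0}` of all sets, and the structures are those whose
domain is in `Type`. The vocabularies are finite, with relation symbols, function symbols and
constant symbols (function symbols of arity `0`).

The case of recursive axiom systems answers Solovay's question. It is proved in the starting files
`R587/Main.lean` and `R587/VL.lean` for relational vocabularies. The present file extends the
argument to function symbols and from recursive axiom systems to analytical ones, and to all axiom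
systems which are definable, without parameters, over the sets of hereditary size at most the
size of the models. Some hypothesis of this kind is needed, see
`Pool.Agent.N223.Cat.exists_not_categorical`.
-/

set_option autoImplicit false

namespace Pool.Agent.Results.MP_cba9f6_lc.DefinableAxioms

open Cardinal
open Pool.Agent.W868 (Fml Sat nat)
open Pool.Agent.R587 (VL HH)
open Pool.Agent.R587.Voc
open Pool.Agent.N223.Cat (Analytical)

/-- The set `C` of natural numbers is definable without parameters in the structure `(H(c⁺), ∈)` of
the sets that are hereditarily of cardinality at most `c`. -/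
def DefH (c : Cardinal.{0}) (C : ℕ → Prop) : Prop :=
  ∃ φ : Fml Empty 1, ∀ x ∈ HH c, (Sat (HH c) Empty.elim φ ![x] ↔ ∃ n : ℕ, C n ∧ x = nat n)

/-- The set of sentences `S` is a weakly definable set of axioms for the models of `T`: the set of
the Goedel numbers of its elements is recursive, or analytical, or definable without parameters
over `H(λ⁺)` for the cardinality `λ` of each infinite model of `T`. -/
def DefAxioms {m l : ℕ} {ar : Fin m → ℕ} {af : Fin l → ℕ} (T S : Set (Fo ar af)) : Prop :=
  (ComputablePred fun n : ℕ => ∃ φ ∈ S, φ.code = n) ∨
  (Analytical fun n : ℕ => ∃ φ ∈ S, φ.code = n) ∨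
  ∀ A : St ar af, ModelsT A T → ℵ₀ ≤ #A.Dom → DefH #A.Dom fun n : ℕ => ∃ φ ∈ S, φ.code = n

/-- **Assume `V = L`. Let `T` be a complete second-order theory in a finite vocabulary that has the
same models as a set `S` of sentences whose set of Goedel numbers is recursive, or analytical, or
definable over `H(λ⁺)` for each cardinality `λ` of an infinite model of `T`. Then `T` is
categorical.** -/
theorem result (hV : VL) {m l : ℕ} (ar : Fin m → ℕ) (af : Fin l → ℕ) (T S : Set (Fo ar af))
    (hc : CompleteT T) (hS : IsTheory S) (hTS : ∀ A : St ar af, ModelsT A T ↔ ModelsT A S)
    (hD : DefAxioms T S) : CategoricalT T := by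
  refine Pool.Agent.N223.Cat.categorical hV hc hS hTS fun A hA hAi => ?_
  have hM := Pool.Agent.R587.full_HH hAi
  rcases hD with h | h | h
  · exact Pool.Agent.N223.Cat.DA.of_computable hM h
  · exact Pool.Agent.N223.Cat.DA.of_analytical hM h
  · obtain ⟨φ, hφ⟩ := h A hA hAi
    refine Pool.Agent.R587.dfn_iff.2 ⟨φ, fun v hv => ?_⟩
    have e : v = ![v 0] := by
      funext i
      fin_cases i
      rfl
    rw [← hφ (v 0) (hv 0)]
    exact iff_of_eq (congrArg _ e)

end Pool.Agent.Results.MP_cba9f6_lc.DefinableAxioms
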